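import Mathlib

/-!
# Few polynomials vanishing at the origin have another common zero

Over an algebraically closed field, fewer than `n` polynomials in `n` variables that vanish at the
origin have a common zero different from the origin.
-/

set_option autoImplicit false

open MvPolynomial

namespace Pool.Agent.PythTwo

variable {K : Type} [Field K]

/-- The substitution killing the first `j` variables. -/
noncomputable def kill {ι : Type} {n : ℕ} (e : ι ≃ Fin n) (j : ℕ) :
    MvPolynomial ι K →ₐ[K] MvPolynomial ι K :=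
  aeval (fun i => if (e i : ℕ) < j then 0 else X i)

lemma kill_X {ι : Type} {n : ℕ} (e : ι ≃ Fin n) (j : ℕ) (i : ι) :
    kill (K := K) e j (X i) = if (e i : ℕ) < j then 0 else X i := by
  simp [kill]

lemma kill_kill {ι : Type} {n : ℕ} (e : ι ≃ Fin n) {j j' : ℕ} (h : j ≤ j')
    (p : MvPolynomial ι K) : kill e j' (kill e j p) = kill e j' p := by
  have : (kill (K := K) e j').comp (kill e j) = kill e j' := by
    apply MvPolynomial.algHom_ext
    intro i
    rw [AlgHom.comp_apply, kill_X]
    split_ifs with h1
    · rw [map_zero, kill_X, if_pos (lt_of_lt_of_le h1 h)]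
    · rfl
  conv_rhs => rw [← this]
  rw [AlgHom.comp_apply]

/-- The ideal of the origin has height at least the number of variables. -/
lemma le_height_origin {ι : Type} [Finite ι] (n : ℕ) (e : ι ≃ Fin n) :
    (n : ℕ∞) ≤ (MvPolynomial.vanishingIdeal K {(0 : ι → K)}).height := by
  let P : Fin (n + 1) → PrimeSpectrum (MvPolynomial ι K) := fun j =>
    ⟨RingHom.ker (kill (K := K) e j), RingHom.ker_isPrime _⟩
  have hP : StrictMono P := by
    rw [Fin.strictMono_iff_lt_succ]
    intro j
    have hle : P j.castSucc ≤ P j.succ := by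
      intro p hp
      have hp' : kill (K := K) e j p = 0 := hp
      change kill (K := K) e (j + 1 : ℕ) p = 0
      rw [← kill_kill e (Nat.le_succ _), hp', map_zero]
    refine lt_of_le_of_ne hle ?_
    intro heq
    have h1 : (X (e.symm j) : MvPolynomial ι K) ∈ (P j.succ).asIdeal := by
      change kill (K := K) e (j + 1 : ℕ) _ = 0
      rw [kill_X, if_pos (by simp)]
    rw [← heq] at h1
    have h2 : kill (K := K) e (j : ℕ) (X (e.symm j)) = 0 := h1
    rw [kill_X, if_neg (by simp)] at h2
    exact X_ne_zero _ h2
  let L : LTSeries (PrimeSpectrum (MvPolynomial ι K)) := LTSeries.mk n P hP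
  have hlast : L.last ≤ (⟨MvPolynomial.vanishingIdeal K {(0 : ι → K)}, inferInstance⟩ :
      PrimeSpectrum (MvPolynomial ι K)) := by
    intro p hp
    have hp' : kill (K := K) e n p = 0 := hp
    change p ∈ MvPolynomial.vanishingIdeal K {(0 : ι → K)}
    rw [mem_vanishingIdeal_singleton_iff]
    have hk : (aeval (0 : ι → K)).comp (kill (K := K) e n) = aeval (0 : ι → K) := by
      apply MvPolynomial.algHom_ext
      intro i
      rw [AlgHom.comp_apply, kill_X, if_pos (e i).2, map_zero, aeval_X, Pi.zero_apply]
    rw [← hk, AlgHom.comp_apply, hp', map_zero]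
  have h := Order.length_le_height hlast
  have h' := PrimeSpectrum.height_eq_orderHeight
    (⟨MvPolynomial.vanishingIdeal K {(0 : ι → K)}, inferInstance⟩ :
      PrimeSpectrum (MvPolynomial ι K))
  change (MvPolynomial.vanishingIdeal K {(0 : ι → K)}).height = _ at h'
  rw [h']
  exact h

/-- **Common zeros.** -/
theorem exists_common_zero [IsAlgClosed K] {ι σ : Type} [Fintype ι] [Fintype σ]
    (F : σ → MvPolynomial ι K) (hcard : Fintype.card σ < Fintype.card ι)
    (hF : ∀ s, eval 0 (F s) = 0) : ∃ x : ι → K, x ≠ 0 ∧ ∀ s, eval x (F s) = 0 := by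
  classical
  set m : Ideal (MvPolynomial ι K) := MvPolynomial.vanishingIdeal K {(0 : ι → K)} with hm
  have hI : Ideal.span (Set.range F) ≤ m := by
    rw [Ideal.span_le]
    rintro _ ⟨s, rfl⟩
    change F s ∈ m
    rw [hm, mem_vanishingIdeal_singleton_iff]
    rw [← coe_aeval_eq_eval] at hF
    exact hF s
  obtain ⟨q, hq, hqm⟩ := Ideal.exists_minimalPrimes_le hI
  have hqp : q.IsPrime := hq.1.1
  have hfin : (Set.range F).Finite := Set.finite_range F
  have h1 : q.height ≤ (Set.range F).ncard := Ideal.height_le_card_of_mem_minimalPrimes_span hfin hq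
  have h2 : (Set.range F).ncard ≤ Fintype.card σ := by
    rw [← Set.image_univ]
    refine (Set.ncard_image_le Set.finite_univ).trans ?_
    rw [Set.ncard_univ, Nat.card_eq_fintype_card]
  have h3 : q ≠ m := by
    intro h
    have h4 := le_height_origin (K := K) (Fintype.card ι) (Fintype.equivFin ι)
    rw [← hm, ← h] at h4
    have h5 : (Fintype.card ι : ℕ∞) ≤ (Fintype.card σ : ℕ∞) :=
      h4.trans (h1.trans (by exact_mod_cast h2))
    have h6 : Fintype.card ι ≤ Fintype.card σ := by exact_mod_cast h5
    omega
  by_contra hcon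
  push Not at hcon
  apply h3
  apply le_antisymm hqm
  rw [← IsPrime.vanishingIdeal_zeroLocus (K := K) q, hm]
  apply vanishingIdeal_anti_mono
  intro x hx
  rw [Set.mem_singleton_iff]
  by_contra hx0
  obtain ⟨s, hs⟩ := hcon x hx0
  apply hs
  have : F s ∈ q := hq.1.2 (Ideal.subset_span ⟨s, rfl⟩)
  have h7 := (mem_zeroLocus_iff.1 hx) _ this
  rw [← coe_aeval_eq_eval]
  exact h7

end Pool.Agent.PythTwo
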